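import Mathlib
import Pool.Agent.X202.Gurarii

set_option autoImplicit false

/-!
# MP_63eeb0_an, Q1: Gurarii spaces of every infinite density with a monotone transfinite basis
-/

open Pool.Agent.X202.Gurarii

namespace Pool.Agent.Results.MP_63eeb0_an.MonotoneBasis

/-- The density of a topological space: the least cardinality of a dense subset. -/
noncomputable def density (X : Type) [TopologicalSpace X] : Cardinal.{0} :=
  sInf {c | ∃ D : Set X, Dense D ∧ Cardinal.mk D = c}

/-- `ε`-isometric embeddings. -/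
def IsEpsIsometric {F X : Type} [NormedAddCommGroup F] [NormedSpace ℝ F] [NormedAddCommGroup X]
    [NormedSpace ℝ X] (ε : ℝ) (f : F →L[ℝ] X) : Prop :=
  ∀ y, (1 + ε)⁻¹ * ‖y‖ ≤ ‖f y‖ ∧ ‖f y‖ ≤ (1 + ε) * ‖y‖

/-- Gurarii spaces (of any density). -/
def IsGurarii (X : Type) [NormedAddCommGroup X] [NormedSpace ℝ X] : Prop :=
  ∀ ε : ℝ, 0 < ε → ∀ (F : Type) [NormedAddCommGroup F] [NormedSpace ℝ F] [FiniteDimensional ℝ F]
    (E : Submodule ℝ F) (e : E →ₗᵢ[ℝ] X),
    ∃ f : F →L[ℝ] X, IsEpsIsometric ε f ∧ ∀ x : E, ‖f x - e x‖ ≤ ε * ‖x‖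

/-- `(e α)_{α < lam}` is a transfinite Schauder basis with projections `(P β)_{β ≤ lam}`. -/
structure IsTransfiniteBasis {X : Type} [NormedAddCommGroup X] [NormedSpace ℝ X]
    (lam : Ordinal.{0}) (e : Ordinal.{0} → X) (P : Ordinal.{0} → X →L[ℝ] X) : Prop where
  ne_zero : ∀ α < lam, e α ≠ 0
  dense : Dense (Submodule.span ℝ (e '' Set.Iio lam) : Set X)
  proj_idem : ∀ β ≤ lam, ∀ x, P β (P β x) = P β x
  proj_lt : ∀ β ≤ lam, ∀ α < β, P β (e α) = e α
  proj_ge : ∀ β ≤ lam, ∀ α < lam, β ≤ α → P β (e α) = 0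
  proj_top : ∀ x, P lam x = x
  cont : ∀ x, ContinuousOn (fun β => P β x) (Set.Iic lam)

/-- The basis is monotone. -/
def IsMonotone {X : Type} [NormedAddCommGroup X] [NormedSpace ℝ X] (lam : Ordinal.{0})
    (P : Ordinal.{0} → X →L[ℝ] X) : Prop := ∀ β ≤ lam, ‖P β‖ ≤ 1

section

variable {ι : Type} [LinearOrder ι] [WellFoundedLT ι] (s : Sys ι)

/-- the space -/
abbrev Y : Type := (X0 s).topologicalClosure

theorem mem_closure (x : Y s) : (x : Linf ι) ∈ closure (X0 s : Set (Linf ι)) := by
  have := x.2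
  rwa [← SetLike.mem_coe, Submodule.topologicalClosure_coe] at this

/-- basis vectors in the space -/
noncomputable def eY (α : ι) : Y s := ⟨e s α, (X0 s).le_topologicalClosure (e_mem s α)⟩

theorem norm_eY_sub {α β : ι} (h : α ≠ β) : 1 ≤ ‖eY s α - eY s β‖ := norm_e_sub_e s h

theorem dense_span : Dense (Submodule.span ℝ (Set.range (eY s)) : Set (Y s)) := by
  intro x
  rw [Metric.mem_closure_iff]
  intro ε hε
  obtain ⟨y, hy1, hy2⟩ := Metric.mem_closure_iff.1 (mem_closure s x) ε hε
  refine ⟨⟨y, (X0 s).le_topologicalClosure hy1⟩, ?_, hy2⟩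
  have h1 : (X0 s) = Submodule.map (Submodule.subtype _) (Submodule.span ℝ (Set.range (eY s))) := by
    rw [Submodule.map_span, ← Set.range_comp]
    exact X0_eq_span s
  have h2 : y ∈ Submodule.map (Submodule.subtype _) (Submodule.span ℝ (Set.range (eY s))) := by
    rw [← h1]; exact hy1
  obtain ⟨z, hz1, hz2⟩ := h2
  have h3 : z = ⟨y, (X0 s).le_topologicalClosure hy1⟩ := Subtype.ext hz2
  rw [← h3]
  exact hz1

/-- projection associated with a lower set -/
noncomputable def PY (A : Set ι) (hA : IsLowerSet A) : Y s →L[ℝ] Y s :=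
  ((P s A).comp (X0 s).topologicalClosure.subtypeL).codRestrict (X0 s).topologicalClosure (by
    intro x
    have h1 : Set.MapsTo (P s A) (X0 s : Set (Linf ι)) (X0 s : Set (Linf ι)) := fun y hy =>
      Set.Finite.subset hy (dsupp_P_lower s hA y)
    have h2 := h1.closure (P s A).continuous (mem_closure s x)
    rw [← Submodule.topologicalClosure_coe] at h2
    exact h2)

theorem PY_coe (A : Set ι) (hA : IsLowerSet A) (x : Y s) : (PY s A hA x : Linf ι) = P s A x := rfl

theorem norm_PY_le (A : Set ι) (hA : IsLowerSet A) : ‖PY s A hA‖ ≤ 1 :=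
  ContinuousLinearMap.opNorm_le_bound _ zero_le_one fun x => by
    rw [one_mul]; exact norm_P_le s A x

theorem isGurarii (hcof : Cofinal s) : IsGurarii (Y s) := by
  intro ε hε F _ _ _ E e0
  obtain ⟨f, hf1, hf2, hf3⟩ := gurarii s hcof hε F E
    ((X0 s).topologicalClosure.subtype ∘ₗ e0.toLinearMap) (fun x => mem_closure s (e0 x))
    (fun x => e0.norm_map x)
  exact ⟨f.codRestrict (X0 s).topologicalClosure
    (fun y => (X0 s).le_topologicalClosure (hf1 y)), hf2, hf3⟩

theorem le_density (D : Set (Y s)) (hD : Dense D) : Cardinal.mk ι ≤ Cardinal.mk D := by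
  have h1 : ∀ α : ι, ∃ d ∈ D, ‖eY s α - d‖ < 1 / 2 := by
    intro α
    obtain ⟨d, hd1, hd2⟩ := Metric.mem_closure_iff.1 (hD (eY s α)) (1 / 2) (by norm_num)
    exact ⟨d, hd1, by rwa [← dist_eq_norm]⟩
  choose d hd1 hd2 using h1
  refine Cardinal.mk_le_of_injective (f := fun α => (⟨d α, hd1 α⟩ : D)) fun α β hαβ => ?_
  by_contra hne
  have h2 : d α = d β := congrArg Subtype.val hαβ
  have h3 := norm_eY_sub s hne
  have h4 : eY s α - eY s β = (eY s α - d α) - (eY s β - d β) := by rw [h2]; abel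
  rw [h4] at h3
  have h5 := norm_sub_le (eY s α - d α) (eY s β - d β)
  have h6 := hd2 α
  have h7 := hd2 β
  linarith

/-- the rational span -/
noncomputable def ratSpan : (ι →₀ ℚ) →+ Y s :=
  Finsupp.liftAddHom fun α => (AddMonoidHom.mk' (fun q : ℚ => (q : ℝ) • eY s α) fun a b => by
    push_cast; rw [add_smul])

theorem ratSpan_single (α : ι) (q : ℚ) : ratSpan s (Finsupp.single α q) = (q : ℝ) • eY s α := by
  unfold ratSpan
  rw [Finsupp.liftAddHom_apply_single]
  rfl

theorem dense_ratSpan : Dense (Set.range (ratSpan s)) := by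
  have hcl : ∀ x ∈ (ratSpan s).range.topologicalClosure, x ∈ closure (Set.range (ratSpan s)) :=
    fun x hx => hx
  have h1 : ∀ (α : ι) (c : ℝ), c • eY s α ∈ (ratSpan s).range.topologicalClosure := by
    intro α c
    have h2 : Set.MapsTo (fun c : ℝ => c • eY s α) (Set.range ((↑) : ℚ → ℝ))
        (Set.range (ratSpan s)) := by
      rintro _ ⟨q, rfl⟩
      exact ⟨Finsupp.single α q, ratSpan_single s α q⟩
    exact h2.closure (continuous_id.smul continuous_const) (Rat.denseRange_cast c)
  have h3 : ∀ x ∈ Submodule.span ℝ (Set.range (eY s)), ∀ c : ℝ,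
      c • x ∈ (ratSpan s).range.topologicalClosure := by
    intro x hx
    induction hx using Submodule.span_induction with
    | mem x hx => obtain ⟨α, rfl⟩ := hx; exact h1 α
    | zero => intro c; rw [smul_zero]; exact zero_mem _
    | add x y _ _ hx hy => intro c; rw [smul_add]; exact add_mem (hx c) (hy c)
    | smul a x _ hx => intro c; rw [smul_smul]; exact hx _
  intro x
  have h4 : (Submodule.span ℝ (Set.range (eY s)) : Set (Y s)) ⊆ closure (Set.range (ratSpan s)) := by
    intro y hy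
    have := h3 y hy 1
    rw [one_smul] at this
    exact this
  exact closure_minimal h4 isClosed_closure (dense_span s x)

end

theorem density_eq (κ : Cardinal.{0}) (hκ : Cardinal.aleph0 ≤ κ) (s : Sys κ.ord.ToType) :
    density (Y s) = κ := by
  have hι : Cardinal.mk κ.ord.ToType = κ := by rw [Cardinal.mk_toType, Cardinal.card_ord]
  refine le_antisymm ?_ ?_
  · have h0 : density (Y s) ≤ Cardinal.mk (Set.range (ratSpan s)) :=
      csInf_le' ⟨_, dense_ratSpan s, rfl⟩
    refine h0.trans ?_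
    refine Cardinal.mk_range_le.trans ?_
    have : Infinite κ.ord.ToType := by rw [Cardinal.infinite_iff, hι]; exact hκ
    rw [Cardinal.mk_finsupp_of_infinite, hι]
    simp only [Cardinal.mk_eq_aleph0]
    exact max_le le_rfl hκ
  · refine le_csInf ⟨_, _, dense_ratSpan s, rfl⟩ ?_
    rintro c ⟨D, hD, rfl⟩
    exact hι.symm.le.trans (le_density s D hD)

/-- The ordinal indexed basis. -/
noncomputable def eO {o : Ordinal.{0}} (s : Sys o.ToType) (α : Ordinal.{0}) : Y s :=
  open Classical in if h : α < o then eY s (Ordinal.ToType.mk ⟨α, h⟩) else 0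

theorem eO_lt {o : Ordinal.{0}} (s : Sys o.ToType) {α : Ordinal.{0}} (h : α < o) :
    eO s α = eY s (Ordinal.ToType.mk ⟨α, h⟩) := by
  unfold eO
  rw [dif_pos h]

theorem mem_seg {o : Ordinal.{0}} {α β : Ordinal.{0}} (h : α < o) :
    (Ordinal.ToType.mk ⟨α, h⟩ : o.ToType) ∈ seg o β ↔ α < β := by
  have h1 : (((Ordinal.ToType.toOrd (Ordinal.ToType.mk (⟨α, h⟩ : Set.Iio o)) : Set.Iio o)) :
      Ordinal.{0}) = α := by simp
  change (((Ordinal.ToType.toOrd (Ordinal.ToType.mk (⟨α, h⟩ : Set.Iio o)) : Set.Iio o)) :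
      Ordinal.{0}) < β ↔ α < β
  rw [h1]

theorem isBasis {o : Ordinal.{0}} (s : Sys o.ToType) :
    IsTransfiniteBasis o (eO s) (fun β => PY s (seg o β) (seg_lower o β)) where
  ne_zero := by
    intro α hα h
    rw [eO_lt s hα] at h
    exact e_ne_zero s _ (congrArg Subtype.val h)
  dense := by
    have h1 : eO s '' Set.Iio o = Set.range (eY s) := by
      ext x
      constructor
      · rintro ⟨α, hα, rfl⟩
        rw [eO_lt s hα]
        exact ⟨_, rfl⟩
      · rintro ⟨γ, rfl⟩
        refine ⟨(Ordinal.ToType.toOrd γ : Set.Iio o), (Ordinal.ToType.toOrd γ).2, ?_⟩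
        rw [eO_lt s (Ordinal.ToType.toOrd γ).2]
        congr 1
        exact (Ordinal.ToType.mk : Set.Iio o ≃o o.ToType).apply_symm_apply γ
    rw [h1]
    exact dense_span s
  proj_idem := by
    intro β _ x
    exact Subtype.ext (P_idem s _ _)
  proj_lt := by
    intro β hβ α hα
    rw [eO_lt s (hα.trans_le hβ)]
    exact Subtype.ext (P_e_mem s ((mem_seg _).2 hα))
  proj_ge := by
    intro β _ α hα hβα
    rw [eO_lt s hα]
    exact Subtype.ext (P_e_notMem s (seg_lower o β) fun h => absurd ((mem_seg hα).1 h)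
      (not_lt.2 hβα))
  proj_top := by
    intro x
    refine Subtype.ext ?_
    rw [PY_coe, seg_top o le_rfl, P_univ]
  cont := by
    intro x
    refine Continuous.continuousOn ?_
    exact (continuous_P s (mem_closure s x)).subtype_mk _

/-- **Theorem.** For every infinite cardinal `κ` there is a Gurarii space of density `κ` with a
monotone transfinite Schauder basis (Q1 is the case `κ = ℵ₁`). -/
theorem result (κ : Cardinal.{0}) (hκ : Cardinal.aleph0 ≤ κ) :
    ∃ (X : Type) (_ : NormedAddCommGroup X) (_ : NormedSpace ℝ X) (_ : CompleteSpace X),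
      density X = κ ∧ IsGurarii X ∧
      ∃ (lam : Ordinal.{0}) (e : Ordinal.{0} → X) (P : Ordinal.{0} → X →L[ℝ] X),
        IsTransfiniteBasis lam e P ∧ IsMonotone lam P := by
  obtain ⟨s, hs⟩ := exists_sys κ hκ
  exact ⟨Y s, inferInstance, inferInstance,
    (X0 s).isClosed_topologicalClosure.completeSpace_coe, density_eq κ hκ s, isGurarii s hs,
    κ.ord, eO s, fun β => PY s (seg κ.ord β) (seg_lower κ.ord β), isBasis s,
    fun β _ => norm_PY_le s _ _⟩

end Pool.Agent.Results.MP_63eeb0_an.MonotoneBasis
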